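import Pool.Agent.W644.HK.Char0Main

/-!
# The Dennis trace `K_n(K[Γ]) → HH_n(K[Γ])`, `n ≥ 1`, is concentrated on elements of finite order

`K` is a field of characteristic zero and `Γ` a group, possibly with torsion, for example any group
which is linear over a field of characteristic zero.  Let `z` be any cycle of degree `n + 1 ≥ 1` in
the bar complex (coefficients `ℤ`) of the group of invertible matrices over `K[Γ]`; every class of
`K_{n+1}(K[Γ])` gives such a `z` by the Hurewicz map `K_{n+1}(K[Γ]) → H_{n+1}(GL(K[Γ]); ℤ)`.  Its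
Dennis trace is a class in `HH_{n+1}(K[Γ]) = ⨁_{[g]} H_{n+1}(C_Γ(g); K)`; we show that it is killed
by all Hochschild cocycles (with values in a finitely generated subring of `K`, for example `ℤ`)
which live on the elements of infinite order.
-/

set_option autoImplicit false

namespace Pool.Agent.Results.MP_b6f35e_al.HigherDennisTraceCharZero

open Pool.Agent.W644.HK

universe u v w x

/-- Let `K` be a field of characteristic zero and `Γ` a group such that either
(a) for every finitely generated subgroup `H` of `Γ` there are infinitely many primes `p` such that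
`p`-th roots in `H` are unique and no `g ∈ H` of infinite order is conjugate in `H` to
`g ^ (p ^ j)` for some `j ≥ 1`; or
(b) `Γ` is linear over some field of characteristic zero.
Let `z` be a cycle of degree `n + 1` in the bar complex of the group of invertible `r × r` matrices
over `K[Γ]`, and `f` a Hochschild `(n+1)`-cocycle on `Γ` with values in a finitely generated subring
of `K` which vanishes on the tuples whose product has finite order.
Then the value `⟨f, D z⟩` of `f` on the Dennis trace of `z` is `0`. -/
theorem result (K : Type u) [Field K] [CharZero K] (Γ : Type v) [Group Γ]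
    (hΓ : (∀ H : Subgroup Γ, H.FG → {p : ℕ | p.Prime ∧
        (∀ x ∈ H, ∀ y ∈ H, x ^ p = y ^ p → x = y) ∧
        ∀ g ∈ H, (∀ m : ℕ, 0 < m → g ^ m ≠ 1) → ∀ j : ℕ, 1 ≤ j → ∀ c ∈ H,
          c * g * c⁻¹ ≠ g ^ p ^ j}.Infinite) ∨
      (∃ (L : Type x) (_ : Field L) (_ : CharZero L) (N : ℕ) (φ : Γ →* GL (Fin N) L),
        Function.Injective φ))
    (r : Type w) [Fintype r] [DecidableEq r] (n : ℕ)
    (z : (Fin (n + 1) → (Matrix r r (MonoidAlgebra K Γ))ˣ) →₀ ℤ) (hz : barBoundary z = 0)
    (s : Finset K) (f : (Fin (n + 2) → Γ) → K) (hs : ∀ g, f g ∈ Algebra.adjoin ℤ (s : Set K))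
    (hf : IsHochschildCocycle f)
    (hfin : ∀ (g : Fin (n + 2) → Γ) (m : ℕ), 0 < m → (List.ofFn g).prod ^ m = 1 → f g = 0) :
    dennis f z = 0 := by
  refine dennis_char0 z hz ?_ s f hs hf hfin
  rcases hΓ with h | ⟨L, iL, iC, N, φ, hφ⟩
  · exact h
  · intro H hH
    have hbad := linear_good φ hφ H hH
    refine (Nat.infinite_setOfPred_prime.sdiff hbad).mono ?_
    rintro p ⟨hp, hgood⟩
    refine ⟨hp, ?_⟩
    by_contra hcon
    exact hgood ⟨hp, hcon⟩

end Pool.Agent.Results.MP_b6f35e_al.HigherDennisTraceCharZero
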